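import Pool.Agent.Helper77.PPB.Goals2
import Pool.Agent.Helper58.PP.DTAM
import Pool.Agent.Helper22.PP.DPRD

/-!
# Project PPB (MP_fc6b1e_nt), packet PPB-B_KU3: ramification
-/

namespace Pool.Agent.Helper82.PPB

open NumberField Polynomial Module IsDedekindDomain
open Pool.Agent.Helper51.RP Pool.Agent.Helper11.PP
open Pool.Agent.Helper40.RS (bel efg lies)
open Pool.Agent.Helper40.RD (bel_of_above)
open Pool.Agent.Helper22.PP (fix_sup ram_of_inertia)
open Pool.Agent.Helper58.PP (ee ord_ee bel_bel map_le_iff ee_ne exists_ord_eq)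

/-- `M F` is Galois over `M`. -/
theorem gal_sup {K : Type} [Field K] [NumberField K]
    (M F : IntermediateField K (AlgebraicClosure K)) [IsGalois K F] :
    @IsGalois M _ (↥(M ⊔ F)) _
      (IntermediateField.inclusion (le_sup_left : M ≤ M ⊔ F)).toRingHom.toAlgebra := by
  have h : M ≤ M ⊔ F := le_sup_left
  have hn2 : Normal M (AlgebraicClosure K) := Normal.tower_top_of_normal K M (AlgebraicClosure K)
  have hs2 : IsGalois M (AlgebraicClosure K) := IsGalois.tower_top_of_isGalois K M _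
  let H' : IntermediateField M (AlgebraicClosure K) := IntermediateField.extendScalars h
  have hmem : ∀ x, x ∈ H' ↔ x ∈ M ⊔ F := fun x => Iff.rfl
  have hN : Normal M H' := by
    rw [IntermediateField.normal_iff_forall_map_le]
    intro σ y hy
    obtain ⟨x, hx, rfl⟩ := hy
    have hx' : x ∈ M ⊔ F := hx
    show σ x ∈ M ⊔ F
    let τ : AlgebraicClosure K →ₐ[K] AlgebraicClosure K := σ.restrictScalars K
    have h1 : (M ⊔ F).map τ ≤ M ⊔ F := by
      rw [IntermediateField.map_sup]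
      refine sup_le_sup ?_ ?_
      · rintro _ ⟨z, hz, rfl⟩
        have h3 : τ z = z := σ.commutes ⟨z, hz⟩
        show τ z ∈ M
        rw [h3]
        exact hz
      · have hF : Normal K F := inferInstance
        exact (IntermediateField.normal_iff_forall_map_le).1 hF τ
    exact h1 ⟨x, hx', rfl⟩
  have hG : IsGalois M H' := { }
  let _ : Algebra M ↥(M ⊔ F) :=
    (IntermediateField.inclusion (le_sup_left : M ≤ M ⊔ F)).toRingHom.toAlgebra
  let e : H' ≃ₐ[M] ↥(M ⊔ F) :=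
    { toFun := fun x => ⟨x.1, x.2⟩
      invFun := fun x => ⟨x.1, x.2⟩
      left_inv := fun _ => rfl
      right_inv := fun _ => rfl
      map_mul' := fun _ _ => rfl
      map_add' := fun _ _ => rfl
      commutes' := fun _ => rfl }
  exact IsGalois.of_algEquiv e

theorem b_ku3 : Pool.Agent.Helper77.PPB.B_KU3 := by
  intro p hpF K _ _ M₂ F₀ _ _ _ a s hs hsH v hv W hW
  have hp := hpF.out
  have hfM : FiniteDimensional K M₂ := Module.Finite.of_restrictScalars_finite ℚ K M₂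
  have hfF : FiniteDimensional K F₀ := Module.Finite.of_restrictScalars_finite ℚ K F₀
  have hfH : FiniteDimensional K ↥(M₂ ⊔ F₀) := inferInstance
  have hnH : NumberField ↥(M₂ ⊔ F₀) := NumberField.of_module_finite K ↥(M₂ ⊔ F₀)
  let _ : Algebra M₂ ↥(M₂ ⊔ F₀) :=
    (IntermediateField.inclusion (le_sup_left : M₂ ≤ M₂ ⊔ F₀)).toRingHom.toAlgebra
  let _ : Algebra F₀ ↥(M₂ ⊔ F₀) :=
    (IntermediateField.inclusion (le_sup_right : F₀ ≤ M₂ ⊔ F₀)).toRingHom.toAlgebra
  have ht1 : IsScalarTower K M₂ ↥(M₂ ⊔ F₀) := IsScalarTower.of_algebraMap_eq (fun _ => rfl)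
  have ht2 : IsScalarTower K F₀ ↥(M₂ ⊔ F₀) := IsScalarTower.of_algebraMap_eq (fun _ => rfl)
  have hgal : IsGalois M₂ ↥(M₂ ⊔ F₀) := gal_sup M₂ F₀
  obtain ⟨P, hP⟩ := Pool.Agent.Helper42.RS.exists_above (M := M₂) (H := ↥(M₂ ⊔ F₀)) W
  have hPW : bel M₂ P = W := HeightOneSpectrum.ext hP.over.symm
  have hWv : bel K W = v := bel_of_above hW
  have hPv : bel K P = v := by rw [← bel_bel (K := K) (N := M₂), hPW, hWv]
  have hin : ∀ g : ↥(M₂ ⊔ F₀) ≃ₐ[M₂] ↥(M₂ ⊔ F₀),
      (∀ x : 𝓞 ↥(M₂ ⊔ F₀), P.valuation ↥(M₂ ⊔ F₀) (g (x : ↥(M₂ ⊔ F₀)) - x) < 1) → g = 1 := by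
    intro g hg
    have h1 : ∀ x : F₀, (g.restrictScalars K) (algebraMap F₀ ↥(M₂ ⊔ F₀) x) =
        algebraMap F₀ ↥(M₂ ⊔ F₀) x := by
      by_contra hne
      apply hv
      rw [← hPv]
      refine ram_of_inertia P (g.restrictScalars K) ?_ hne
      intro y
      have h2 := (HeightOneSpectrum.valuation_lt_one_iff_mem (K := ↥(M₂ ⊔ F₀)) P
        ((g.restrictScalars K) • y - y)).1
      exact h2 (hg y)
    set G : AlgebraicClosure K ≃ₐ[K] AlgebraicClosure K :=
      (g.restrictScalars K).liftNormal (AlgebraicClosure K) with hG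
    have hcom : ∀ x : ↥(M₂ ⊔ F₀), G (x : AlgebraicClosure K) =
        ((g x : ↥(M₂ ⊔ F₀)) : AlgebraicClosure K) :=
      fun x => (g.restrictScalars K).liftNormal_commutes (AlgebraicClosure K) x
    have hfix : ∀ y ∈ M₂ ⊔ F₀, G y = y := by
      apply fix_sup
      · intro y hy
        have h4 := hcom ⟨y, (le_sup_left : M₂ ≤ M₂ ⊔ F₀) hy⟩
        have h5 := congrArg (fun z : ↥(M₂ ⊔ F₀) => (z : AlgebraicClosure K))
          (g.commutes ⟨y, hy⟩)
        exact h4.trans h5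
      · intro y hy
        have h4 := hcom ⟨y, (le_sup_right : F₀ ≤ M₂ ⊔ F₀) hy⟩
        have h5 := congrArg (fun z : ↥(M₂ ⊔ F₀) => (z : AlgebraicClosure K)) (h1 ⟨y, hy⟩)
        exact h4.trans h5
    ext x
    rw [← hcom, hfix x x.2]
    rfl
  have h2 := Pool.Agent.Helper11.RL.x_ine M₂ ↥(M₂ ⊔ F₀) P (bel M₂ P) rfl hin
  have h3 := h2 (a : M₂)
  rw [hPW] at h3
  set s₁ : ↥(M₂ ⊔ F₀) := ⟨s, hsH⟩ with hs₁
  have hs₁p : s₁ ^ p = algebraMap M₂ ↥(M₂ ⊔ F₀) (a : M₂) := Subtype.ext hs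
  have h4 : ordv P (s₁ ^ p) = p * ordv P s₁ := by
    unfold ordv
    rw [map_pow, WithZero.log_pow, nsmul_eq_mul]
    ring
  rw [← h3, ← hs₁p, h4]
  exact dvd_mul_right _ _

end Pool.Agent.Helper82.PPB
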